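import Pool.Agent.TH371.Harm.Final

/-!
# Non-uniqueness of harmonic maps of the disk with prescribed dilatation

There are a simply connected domain `Ω ⊊ ℂ` (the plane minus two parallel half-lines), a point
`w₀ ∈ Ω`, an analytic `ω : 𝔻 → 𝔻` and two distinct sense-preserving harmonic mappings of the disk
`𝔻` onto `Ω` with the same dilatation `ω` and the same normalisation `f(0) = w₀`, `f_z(0) > 0`.
-/

set_option autoImplicit false

namespace Pool.Agent.Results.MP_35dab7_an.NonuniquenessHarmonic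

open Complex Set Topology Filter InnerProductSpace
open scoped ComplexConjugate

/-- The open unit disk. -/
def Disk : Set ℂ := Metric.ball 0 1

/-- The Wirtinger derivative `f_z = (f_x - i f_y)/2`. -/
noncomputable def dz (f : ℂ → ℂ) (z : ℂ) : ℂ := (fderiv ℝ f z 1 - I * fderiv ℝ f z I) / 2

/-- The Wirtinger derivative `f_z̄ = (f_x + i f_y)/2`. -/
noncomputable def dzbar (f : ℂ → ℂ) (z : ℂ) : ℂ := (fderiv ℝ f z 1 + I * fderiv ℝ f z I) / 2

/-- `f` is a solution for `(Ω, ω, w₀)`: a sense-preserving (`|f_z̄| < |f_z|`) harmonic mapping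
(injective harmonic function) of the unit disk onto `Ω` with dilatation `conj f_z̄ / f_z = ω`,
`f 0 = w₀` and `f_z(0) > 0`. -/
structure IsSolution (Ω : Set ℂ) (ω : ℂ → ℂ) (w₀ : ℂ) (f : ℂ → ℂ) : Prop where
  harmonic : HarmonicOnNhd f Disk
  sense : ∀ z ∈ Disk, ‖dzbar f z‖ < ‖dz f z‖
  dilatation : ∀ z ∈ Disk, conj (dzbar f z) = ω z * dz f z
  injOn : InjOn f Disk
  image : f '' Disk = Ω
  base : f 0 = w₀
  pos : 0 < (dz f 0).re ∧ (dz f 0).im = 0

/-- The plane minus the half-lines `{x + 0·i : x ≤ a}` and `{x + π·i : x ≤ b}`. -/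
def Slit (a b : ℝ) : Set ℂ :=
  {w : ℂ | ¬ (w.im = 0 ∧ w.re ≤ a) ∧ ¬ (w.im = Real.pi ∧ w.re ≤ b)}

theorem tr {Ω : Set ℂ} {ω : ℂ → ℂ} {w₀ : ℂ} {f : ℂ → ℂ}
    (h : Pool.Agent.TH371.Harm.IsSolution Ω ω w₀ f) : IsSolution Ω ω w₀ f :=
  ⟨h.harmonic, h.sense, h.dilatation, h.injOn, h.image, h.base, h.pos⟩

/-- **Uniqueness fails in the Riemann mapping theorem for harmonic mappings.**  There are a
simply connected domain `Ω ≠ ℂ` (the plane minus two parallel half-lines), a point `w₀ ∈ Ω`, an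
analytic function `ω` from the unit disk to itself and two different sense-preserving harmonic
mappings of the unit disk onto `Ω` with dilatation `ω`, both with `f 0 = w₀` and `f_z(0) > 0`. -/
theorem result : ∃ (a b : ℝ) (w₀ : ℂ) (ω f₁ f₂ : ℂ → ℂ),
    IsOpen (Slit a b) ∧ SimplyConnectedSpace (Slit a b) ∧ Slit a b ≠ univ ∧ w₀ ∈ Slit a b ∧
    DifferentiableOn ℂ ω Disk ∧ MapsTo ω Disk Disk ∧
    IsSolution (Slit a b) ω w₀ f₁ ∧ IsSolution (Slit a b) ω w₀ f₂ ∧
    ∃ z ∈ Disk, f₁ z ≠ f₂ z := by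
  obtain ⟨a, b, w₀, ω, f₁, f₂, h1, h2, h3, h4, h5⟩ := Pool.Agent.TH371.Harm.main
  refine ⟨a, b, w₀, ω, f₁, f₂, Pool.Agent.TH111.Harm.slit_isOpen a b,
    Pool.Agent.TH111.Harm.slit_simplyConnected a b, ?_, ?_, h1, h2, tr h3, tr h4, h5⟩
  · intro h
    have h6 : (a : ℂ) ∈ Slit a b := by rw [h]; trivial
    exact h6.1 ⟨by simp, by simp⟩
  · have h7 : f₁ 0 ∈ f₁ '' Pool.Agent.TH371.Harm.Disk :=
      mem_image_of_mem f₁ Pool.Agent.TH371.Harm.zero_mem_Disk
    rw [h3.image, h3.base] at h7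
    exact h7

end Pool.Agent.Results.MP_35dab7_an.NonuniquenessHarmonic
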